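import Pool.Agent.Helper61.QG.GoalsV

/-!
# Project QS/QT (MP_0ebdb3_gt), packet V-CVB: bundles, base metrics, fibre metrics
-/

set_option autoImplicit false

open Set
open scoped Matrix

namespace Pool.Agent.Helper87.QG

open Pool.Agent.Helper61
open Pool.Agent.Helper61.QS (V En rk R4 SecNN)
open Pool.Agent.Helper61.QG

variable {n : ℕ}

theorem inner_vE (a b : Fin n → ℝ) : inner ℝ (vE n a) (vE n b) = a ⬝ᵥ b := by
  have h : inner ℝ (vE n a) (vE n b) = ∑ i, inner ℝ (a i) (b i) := rfl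
  rw [h]
  unfold dotProduct
  refine Finset.sum_congr rfl fun i _ => ?_
  show b i * (starRingEnd ℝ) (a i) = a i * b i
  rw [mul_comm]
  rfl

theorem norm_vE_lt {ρ : ℝ} (hρ : 0 < ρ) (v : Fin n → ℝ) : ‖vE n v‖ < ρ ↔ v ⬝ᵥ v < ρ ^ 2 := by
  rw [← inner_vE, real_inner_self_eq_norm_sq]
  constructor
  · intro h
    exact pow_lt_pow_left₀ h (norm_nonneg _) (by norm_num)
  · intro h
    exact lt_of_pow_lt_pow_left₀ 2 hρ.le h

/-- `T` is the operator of the matrix `A` -/
def Op (T : En n) (A : Matrix (Fin n) (Fin n) ℝ) : Prop := ∀ v, T (vE n v) = vE n (A *ᵥ v)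

theorem vE_surj (w : V n) : ∃ v, vE n v = w := ⟨(vE n).symm w, (vE n).apply_symm_apply w⟩

theorem Op.eq {T S : En n} {A : Matrix (Fin n) (Fin n) ℝ} (h : Op T A) (h' : Op S A) : T = S := by
  ext w
  obtain ⟨v, rfl⟩ := vE_surj w
  rw [h v, h' v]

theorem Op.mul {T S : En n} {A B : Matrix (Fin n) (Fin n) ℝ} (h : Op T A) (h' : Op S B) :
    Op (T * S) (A * B) := by
  intro v
  show T (S (vE n v)) = _
  rw [h' v, h, Matrix.mulVec_mulVec]

theorem Op.sub {T S : En n} {A B : Matrix (Fin n) (Fin n) ℝ} (h : Op T A) (h' : Op S B) :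
    Op (T - S) (A - B) := by
  intro v
  show T (vE n v) - S (vE n v) = _
  rw [h v, h' v, Matrix.sub_mulVec, map_sub]

theorem Op.neg {T : En n} {A : Matrix (Fin n) (Fin n) ℝ} (h : Op T A) : Op (-T) (-A) := by
  intro v
  show -(T (vE n v)) = _
  rw [h v, Matrix.neg_mulVec, map_neg]

theorem Op.zero : Op (0 : En n) 0 := by
  intro v
  show (0 : V n) = _
  rw [Matrix.zero_mulVec, map_zero]

theorem Op.star {T : En n} {A : Matrix (Fin n) (Fin n) ℝ} (h : Op T A) : Op (star T) Aᵀ := by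
  intro v
  refine ext_inner_left ℝ fun w => ?_
  obtain ⟨w, rfl⟩ := vE_surj w
  rw [ContinuousLinearMap.star_eq_adjoint, ContinuousLinearMap.adjoint_inner_right, h w,
    inner_vE, inner_vE, Matrix.dotProduct_mulVec, Matrix.vecMul_transpose]

theorem Op.rk {T : En n} {A : Matrix (Fin n) (Fin n) ℝ} (h : Op T A) : QS.rk T = A.rank := by
  unfold QS.rk Matrix.rank
  have h1 : (T : V n →ₗ[ℝ] V n) =
      ((vE n).toLinearEquiv : (Fin n → ℝ) →ₗ[ℝ] V n) ∘ₗ A.mulVecLin ∘ₗ
        ((vE n).toLinearEquiv.symm : V n →ₗ[ℝ] (Fin n → ℝ)) := by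
    ext w
    obtain ⟨v, rfl⟩ := vE_surj w
    show T (vE n v) = vE n (A *ᵥ ((vE n).symm (vE n v)))
    rw [h v, (vE n).symm_apply_apply]
  rw [h1, LinearMap.range_comp, LinearMap.range_comp, LinearEquiv.range, Submodule.map_top]
  exact LinearEquiv.finrank_map_eq (vE n).toLinearEquiv _

/-- the entries of an operator -/
noncomputable def ent (i j : Fin n) : En n →L[ℝ] ℝ :=
  ((ContinuousLinearMap.proj i : (Fin n → ℝ) →L[ℝ] ℝ).comp
    ((vE n).symm : V n →L[ℝ] (Fin n → ℝ))).comp
      (ContinuousLinearMap.apply ℝ (V n) (vE n (Pi.single j 1)))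

theorem ent_apply (i j : Fin n) (T : En n) :
    ent i j T = (vE n).symm (T (vE n (Pi.single j 1))) i := rfl

theorem Op.ent {T : En n} {A : Matrix (Fin n) (Fin n) ℝ} (h : Op T A) (i j : Fin n) :
    ent i j T = A i j := by
  rw [ent_apply, h, (vE n).symm_apply_apply, Matrix.mulVec_single_one]
  rfl

theorem Op.of_ent {T : En n} {A : Matrix (Fin n) (Fin n) ℝ} (h : ∀ i j, QG.ent i j T = A i j) :
    Op T A := by
  intro v
  have h1 : v = ∑ j, v j • (Pi.single j (1 : ℝ) : Fin n → ℝ) := by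
    rw [← pi_eq_sum_univ']
  have h2 : T (vE n v) = ∑ j, v j • T (vE n (Pi.single j 1)) := by
    conv_lhs => rw [h1]
    simp only [map_sum, map_smul]
  apply (vE n).symm.injective
  rw [(vE n).symm_apply_apply, h2, map_sum]
  funext i
  rw [Finset.sum_apply]
  unfold Matrix.mulVec dotProduct
  refine Finset.sum_congr rfl fun j _ => ?_
  rw [map_smul, Pi.smul_apply, smul_eq_mul, ← ent_apply, h i j, mul_comm]

theorem goalCVB : G_CVB := by
  intro WW _ _ _ M n k ρ e B gM γ e' B' g' γ' hR hρ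
  have he : ∀ P, Op (e' P) (e P) := fun P v => hR.he P v
  have hB : ∀ P u, Op (B' P u) (B P u) := fun P u v => hR.hB P u v
  refine ⟨?_, ?_, ?_⟩
  · intro h
    refine ⟨hR.ce, hR.cB, ?_, ?_, ?_, ?_, ?_, ?_, ?_, ?_⟩
    · intro P hP
      have h1 := (he P).mul (he P)
      rw [h.idem P hP] at h1
      exact h1.eq (he P)
    · intro P hP
      have h1 := (he P).star
      rw [h.symm P hP] at h1
      exact h1.eq (he P)
    · intro P hP
      rw [(he P).rk, h.rank P hP]
    · intro g hg P hP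
      have h1 := he (g P)
      rw [h.inv g hg P hP] at h1
      exact h1.eq (he P)
    · intro P hP u hu
      have h1 := (hB P u).star
      rw [h.skew P hP u hu] at h1
      exact h1.eq (hB P u).neg
    · intro P hP u hu
      have hd : DifferentiableAt ℝ e' P := hR.ce.differentiable (by norm_num) P
      have h1 : Op (fderiv ℝ e' P u) (B P u * e P - e P * B P u) := by
        apply Op.of_ent
        intro i j
        rw [← h.par P hP u hu i j]
        have h2 : (fun Q => e Q i j) = fun Q => ent i j (e' Q) := by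
          funext Q
          exact ((he Q).ent i j).symm
        rw [h2]
        have h3 : fderiv ℝ (fun Q => ent i j (e' Q)) P = (ent i j).comp (fderiv ℝ e' P) :=
          ((ent i j).hasFDerivAt.comp P hd.hasFDerivAt).fderiv
        rw [h3]
        rfl
      exact h1.eq (((hB P u).mul (he P)).sub ((he P).mul (hB P u)))
    · intro g hg P hP u hu
      have h1 := hB (g P) (g u)
      rw [h.inv_B g hg P hP u hu] at h1
      exact h1.eq (hB P u)
    · intro P hP u hu
      have h1 := hB P u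
      rw [h.horiz P hP u hu] at h1
      exact h1.eq Op.zero
  · intro h
    refine ⟨hR.cg, ?_, ?_, ?_, ?_⟩
    · intro P hP u hu u' hu'
      rw [hR.hg, hR.hg]
      exact h.symm P hP u hu u' hu'
    · intro g hg P hP u hu u' hu'
      rw [hR.hg, hR.hg]
      exact h.inv g hg P hP u hu u' hu'
    · intro P hP o ho u hu
      rw [hR.hg]
      exact h.horiz P hP o ho u hu
    · intro P hP u hu hu'
      rw [hR.hg]
      exact h.pos P hP u hu hu'
  · intro h
    have hfix : ∀ P v, e' P (vE n v) = vE n v → e P *ᵥ v = v := by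
      intro P v hv
      rw [hR.he] at hv
      exact (vE n).injective hv
    refine ⟨hR.cγ, ?_, ?_, ?_⟩
    · intro P hP v hv hvρ a b ha hb
      obtain ⟨v, rfl⟩ := vE_surj v
      obtain ⟨a, rfl⟩ := vE_surj a
      obtain ⟨b, rfl⟩ := vE_surj b
      rw [hR.hγ, hR.hγ]
      exact h.symm P hP v (hfix P v hv) ((norm_vE_lt hρ v).1 hvρ) a b (hfix P a ha) (hfix P b hb)
    · intro P hP v hv hvρ a ha ha0
      obtain ⟨v, rfl⟩ := vE_surj v
      obtain ⟨a, rfl⟩ := vE_surj a
      rw [hR.hγ]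
      refine h.pos P hP v (hfix P v hv) ((norm_vE_lt hρ v).1 hvρ) a (hfix P a ha) ?_
      rintro rfl
      exact ha0 (map_zero _)
    · intro g hg P hP v hv hvρ a b ha hb
      obtain ⟨v, rfl⟩ := vE_surj v
      obtain ⟨a, rfl⟩ := vE_surj a
      obtain ⟨b, rfl⟩ := vE_surj b
      rw [hR.hγ, hR.hγ]
      exact h.inv g hg P hP v (hfix P v hv) ((norm_vE_lt hρ v).1 hvρ) a b (hfix P a ha)
        (hfix P b hb)

end Pool.Agent.Helper87.QG
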